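import Pool.Agent.H3.ShafMain

/-! # `MP_d071c2_nt`: the Shafarevich dimension in dimension one -/

namespace Pool.Agent.Results.MP_d071c2_nt.Dense

open Pool.Agent.H3.Shaf IsDedekindDomain NumberField

/-- **Main theorem.** Let `Ω` be an algebraically closed field of characteristic zero, `d ≥ 2`.
The classes of the maps defined over `ℚ` with good reduction at all primes except (possibly) those
above `2` are Zariski dense in `M_d^1`; hence `σ_d^1 = dim M_d^1`. -/
theorem result (Ω : Type*) [Field Ω] [CharZero Ω] [IsAlgClosed Ω] (d : ℕ) (hd : 2 ≤ d) :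
    (∃ S : Finset (HeightOneSpectrum (𝓞 ℚ)), (∀ v ∈ S, (2 : 𝓞 ℚ) ∈ v.asIdeal) ∧
      Dense (goodClasses d (algebraMap ℚ Ω) S)) ∧
    shafDim Ω d = topologicalKrullDim (Moduli Ω d) :=
  Pool.Agent.H3.ShafMain.main Ω d hd

end Pool.Agent.Results.MP_d071c2_nt.Dense
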